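import Pool.Agent.Lib.MP_1a91b9_ntV.R.Sup7
import Pool.Agent.Lib.MP_1a91b9_ntR.OKt

/-!
# The field `ℚ(√-7)`: the hypotheses of the abstract engine

`D7`: the data `s q p = [q / p]` (symbol of `q` modulo `p`), `a q = (a_q, b_q, b'_q)`; `E7`: the
same with `s q p = [p / q]`; `wR7 = (1, 0, 0)`.
-/

set_option autoImplicit false
set_option linter.unusedSectionVars false

namespace Pool.Agent.Lib.MP_1a91b9_ntV

open NumberField Finset Pool.Agent.Lib.MP_1a91b9_nuT Pool.Agent.Lib.MP_1a91b9_ntQ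
open Pool.Agent.Lib.MP_1a91b9_ntR (nG Qi Pri sys Rcp)

noncomputable section

variable [CD] [hv : V7]

/-- The class characters. -/
def cl7 : Fin 3 → 𝓞 K → ZMod 2 := ![fun x => bE (rb x), fun x => bF (ra x), fun x => bF (rb x)]

/-- The vector of the reciprocity law. -/
def wR7 : Fin 3 → ZMod 2 := ![1, 0, 0]

/-- The data of the engine: `s q p` is the symbol of `q` modulo `p`. -/
def D7 : Dat2 Pg7 (Fin 3) where
  s q p := sb p q.1
  a q j := cl7 j q.1

/-- The data of the engine: `s q p` is the symbol of `p` modulo `q`. -/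
def E7 : Dat2 Pg7 (Fin 3) where
  s q p := sb q p.1
  a q j := cl7 j q.1

theorem sum_cl7 (c : Fin 3 → ZMod 2) (x : 𝓞 K) :
    ∑ j, c j * cl7 j x = c 0 * bE (rb x) + c 1 * bF (ra x) + c 2 * bF (rb x) := by
  rw [Fin.sum_univ_three]
  rfl

theorem sum_wR7 (x : 𝓞 K) : ∑ j, wR7 j * cl7 j x = bE (rb x) := by
  rw [sum_cl7]
  change 1 * bE (rb x) + 0 * bF (ra x) + 0 * bF (rb x) = _
  rw [one_mul, zero_mul, zero_mul, add_zero, add_zero]

theorem dg_wR7 (q : Pg7) : D7.dg wR7 q = aa q := sum_wR7 q.1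

theorem rcp7 : Rcp (R := 𝓞 K) cl7 wR7 := by
  intro p q h
  rw [sum_wR7, sum_wR7]
  exact cc_recip p q h

theorem mod7 (n : ℕ) : (sys (𝓞 K)).Mod ((2 : 𝓞 K) ^ (n + 3)) where
  dvd := ⟨(2 : 𝓞 K) ^ (n + 1), by
    change (2 : 𝓞 K) ^ (n + 3) = 4 * _
    ring⟩
  cop x hx := by
    have hx' : In7 x := hx
    have h4 : IsCoprime x ((2 : 𝓞 K) ^ 2) := by
      have e : (2 : 𝓞 K) ^ 2 = 4 := by norm_num
      rw [e]
      exact cop_four hx'.not_ta hx'.2
    exact ((IsCoprime.pow_right_iff (by norm_num)).1 h4).pow_right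

theorem two_pow_ne7 (n : ℕ) : (2 : 𝓞 K) ^ (n + 3) ≠ 0 := pow_ne_zero _ two_ne_zero

theorem eight_red {n : ℕ} {x y : 𝓞 K} (h : (2 : 𝓞 K) ^ (n + 3) ∣ x - y) :
    ra x = ra y ∧ rb x = rb y := by
  obtain ⟨z, hz⟩ := h
  have e : x = y + (2 : 𝓞 K) ^ n * 8 * z := by
    have h1 : (2 : 𝓞 K) ^ (n + 3) = 2 ^ n * 8 := by ring
    rw [h1] at hz
    linear_combination hz
  have h8 : (8 : ZMod 8) = 0 := by decide
  constructor
  · rw [e, map_add, map_mul, map_mul, map_ofNat, h8, mul_zero, zero_mul, add_zero]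
  · rw [e, map_add, map_mul, map_mul, map_ofNat, h8, mul_zero, zero_mul, add_zero]

/-- An element with given reductions. -/
theorem exists_red (u v : ZMod 8) : ∃ x : 𝓞 K, ra x = u ∧ rb x = v := by
  obtain ⟨m, hm⟩ : ∃ m : ℤ, m = 2 * v.val - u.val := ⟨_, rfl⟩
  obtain ⟨n, hn⟩ : ∃ n : ℤ, n = 3 * (u.val - v.val) := ⟨_, rfl⟩
  obtain ⟨h1, h2⟩ := coo_of (x := (m : 𝓞 K) + (n : 𝓞 K) * ta) rfl
  refine ⟨(m : 𝓞 K) + (n : 𝓞 K) * ta, ?_, ?_⟩
  · rw [ra_apply, h1, h2, hm, hn]
    push_cast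
    rw [ZMod.natCast_zmod_val, ZMod.natCast_zmod_val]
    clear hm hn h1 h2
    revert u v
    decide
  · rw [rb_apply, h1, h2, hm, hn]
    push_cast
    rw [ZMod.natCast_zmod_val, ZMod.natCast_zmod_val]
    clear hm hn h1 h2
    revert u v
    decide

theorem cls7 (n : ℕ) : (sys (𝓞 K)).Cls ((2 : 𝓞 K) ^ (n + 3)) cl7 where
  mul j x y hx hy := by
    have hx' : In7 x := hx
    have hy' : In7 y := hy
    fin_cases j
    · change bE (rb (x * y)) = _
      rw [map_mul, bE_mul (odd_rb hx'.2) (odd_rb hy'.2)]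
      rfl
    · change bF (ra (x * y)) = _
      rw [map_mul, bF_mul (odd_ra hx'.not_ta) (odd_ra hy'.not_ta)]
      rfl
    · change bF (rb (x * y)) = _
      rw [map_mul, bF_mul (odd_rb hx'.2) (odd_rb hy'.2)]
      rfl
  per j x y _ h := by
    obtain ⟨h1, h2⟩ := eight_red h
    fin_cases j
    · change bE (rb x) = bE (rb y)
      rw [h2]
    · change bF (ra x) = bF (ra y)
      rw [h1]
    · change bF (rb x) = bF (rb y)
      rw [h2]
  indep c hc := by
    have key : ∀ u v : ZMod 8, (2 * u = 2 ∧ 4 * v = 4) →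
        c 0 * bE v + c 1 * bF u + c 2 * bF v ≠ 0 →
        ∃ b, (sys (𝓞 K)).In b ∧ ∑ j, c j * cl7 j b ≠ 0 := by
      intro u v h1 h2
      obtain ⟨x, hu, hv'⟩ := exists_red u v
      refine ⟨x, ?_, ?_⟩
      · change In7 x
        rw [in7_iff, hu, hv']
        exact h1
      · rw [sum_cl7, hu, hv']
        exact h2
    by_cases h0 : c 0 = 0
    · by_cases h1 : c 1 = 0
      · have h2 : c 2 ≠ 0 := by
          intro h2
          apply hc
          funext j
          fin_cases j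
          · exact h0
          · exact h1
          · exact h2
        refine key 1 5 (by decide) ?_
        rw [h0, h1]
        have e : bF 5 = 1 := by decide
        rw [e, zero_mul, zero_mul, zero_add, zero_add, mul_one]
        exact h2
      · refine key 5 1 (by decide) ?_
        rw [h0]
        have e1 : bF 5 = 1 := by decide
        have e2 : bF 1 = 0 := by decide
        rw [e1, e2, zero_mul, mul_zero, zero_add, add_zero, mul_one]
        exact h1
    · refine key 1 7 (by decide) ?_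
      have e1 : bF 1 = 0 := by decide
      have e2 : bF 7 = 0 := by decide
      have e3 : bE 7 = 1 := by decide
      rw [e1, e2, e3, mul_zero, mul_zero, add_zero, add_zero, mul_one]
      exact h0

/-- **The hypotheses of the engine for `ℚ(√-7)`**, `s q p = [q / p]`. -/
theorem okt7 : OKt D7 wR7 := by
  have h := Pool.Agent.Lib.MP_1a91b9_ntR.okt' (R := 𝓞 K) rcp7 (mod7 0) (two_pow_ne7 0) (cls7 0)
  have e : (sys (𝓞 K)).dat cl7 = D7 := by
    unfold Pool.Agent.Lib.MP_1a91b9_ntR.QSys.dat D7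
    congr 1
    funext q p
    exact (cc_sb p q.1).symm
  rw [e] at h
  exact h

/-- **The hypotheses of the engine for `ℚ(√-7)`**, `s q p = [p / q]`. -/
theorem okt7' : OKt E7 wR7 := by
  have h := Pool.Agent.Lib.MP_1a91b9_ntR.okt (R := 𝓞 K) rcp7 (mod7 0) (two_pow_ne7 0) (cls7 0)
  have e : Pool.Agent.Lib.MP_1a91b9_ntR.dR (R := 𝓞 K) cl7 = E7 := by
    unfold Pool.Agent.Lib.MP_1a91b9_ntR.dR E7
    congr 1
    funext q p
    exact (cc_sb q p.1).symm
  rw [e] at h
  exact h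

end

end Pool.Agent.Lib.MP_1a91b9_ntV
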