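import Pool.Agent.Lib.MP_1a91b9_ntV.R.Inst7

/-!
# The field `ℚ(√-7)`: the supplementary laws for `2`, `a`, `1 - a`
-/

set_option autoImplicit false
set_option linter.unusedSectionVars false

namespace Pool.Agent.Lib.MP_1a91b9_ntV

open NumberField Pool.Agent.Lib.MP_1a91b9_nuT Pool.Agent.Lib.MP_1a91b9_ntQ
open Pool.Agent.Lib.MP_1a91b9_ntR (Qi Pri nG nG_cast nfG mulG js Rd)

noncomputable section

variable [CD] [hv : V7]

theorem m8 (E k : ℤ) (h0 : 0 ≤ k) (h8 : k < 8) : E % 8 = k ↔ (E : ZMod 8) = (k : ZMod 8) := by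
  have h : (E : ZMod 8) = (k : ZMod 8) ↔ (8 : ℤ) ∣ E - k := by
    rw [← sub_eq_zero (a := (E : ZMod 8)), ← Int.cast_sub, ZMod.intCast_zmod_eq_zero_iff_dvd]
    rfl
  rw [h]
  omega

theorem m84 (E k : ℤ) (h0 : 0 ≤ k) (h4 : k < 4) :
    E % 4 = k ↔ ((E : ZMod 8) = (k : ZMod 8) ∨ (E : ZMod 8) = ((k + 4 : ℤ) : ZMod 8)) := by
  rw [← m8 E k h0 (by linarith), ← m8 E (k + 4) (by linarith) (by linarith)]
  omega

/-- **The supplementary law for `2`.** -/
theorem cc_two (q : Pg7) : cc q 2 = b1 q + b2 q := by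
  have h := Pool.Agent.Lib.MP_1a91b9_ntR.c2_two (R := 𝓞 K) q
  change cc q 2 = _ at h
  rw [h, b1, b2, ← bF_mul (odd_ra q.not_ta) (odd_rb q.not_tb), ← nG_mod, bF]
  have h3 := m8 (nG q.1 : ℤ) 3 (by norm_num) (by norm_num)
  have h5 := m8 (nG q.1 : ℤ) 5 (by norm_num) (by norm_num)
  push_cast at h3 h5
  have e : (nG q.1 % 8 = 3 ∨ nG q.1 % 8 = 5) ↔
      ((nG q.1 : ℤ) % 8 = 3 ∨ (nG q.1 : ℤ) % 8 = 5) := by omega
  simp only [e, h3, h5]

theorem nG_ta : nG (ta : 𝓞 K) = 2 := by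
  have h := nG_c (ta : 𝓞 K)
  rw [coo_ta.1, coo_ta.2] at h
  norm_num at h
  exact_mod_cast h

theorem q_not_ta (q : Pg7) : ¬ q.1 ∣ ta := fun h => q.not_two (h.trans ⟨tb, ta_mul_tb.symm⟩)

theorem q_not_tb (q : Pg7) : ¬ q.1 ∣ tb := fun h =>
  q.not_two (h.trans ⟨ta, by rw [mul_comm]; exact ta_mul_tb.symm⟩)

theorem supp7 (u v : ZMod 8) (h : u - v = 1 ∨ u - v = 5) :
    ((if (u ^ 2 + 7 * v ^ 2 = 3 ∨ u ^ 2 + 7 * v ^ 2 = 7) ∧ (v - u = 3 ∨ v - u = 7) then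
        (1 : ZMod 2) else 0) +
      (if v - u = 3 ∨ v - u = 5 then 1 else 0)) +
      (if (v = 2 ∨ v = 6) ∨ (v = 3 ∨ v = 7) then 1 else 0) =
    (if u ^ 2 + 7 * v ^ 2 = 3 ∨ u ^ 2 + 7 * v ^ 2 = 5 then 1 else 0) +
    ((if v = 1 ∨ v = 3 ∨ v = 5 ∨ v = 7 then 1 else 0) + bF (u - v + 6 * (2 * v))) := by
  revert h
  revert u v
  decide +kernel

/-- **The supplementary law for `a`.** -/
theorem cc_ta (q : Pg7) : cc q ta = aa q + b1 q := by
  obtain ⟨c, d, e1, e2, e3, e4, e5⟩ := form7 q.1 q.2.2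
  have haa := aa_d e4 e5 e3
  rcases rd7.cases q e1 e3 with ⟨p, hp, hp2, hN⟩ | ⟨p, hp, hp2, hN, hd, hc, h0, h4⟩
  · have hNm : c ^ 2 + 7 * d ^ 2 = p := by rw [← e2, hN]
    have e2t : ((1 : ℤ) : 𝓞 K) + ((1 : ℤ) : 𝓞 K) * wv = 2 * ta := by
      unfold wv
      push_cast
      ring
    have hn : ¬ q.1 ∣ ((1 : ℤ) : 𝓞 K) + ((1 : ℤ) : 𝓞 K) * wv := by
      rw [e2t]
      intro h
      rcases q.prime.dvd_or_dvd h with h | h
      · exact q.not_two h
      · exact q_not_ta q h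
    obtain ⟨a1, a2, a3⟩ := Pool.Agent.Lib.MP_1a91b9_ntR.c2_split (R := 𝓞 K) q hp hN rd7.sq
      e1 hNm hn
    rw [e2t] at a3
    have e0 : (1 : ℤ) * d - 1 * c = d - c := by ring
    rw [e0] at a2 a3
    change cc q (2 * ta) = _ at a3
    rw [cc_mul q q.not_two (q_not_ta q)] at a3
    have hpo : p % 2 = 1 := Nat.odd_iff.1 (hp.odd_of_ne_two hp2)
    have cd := Pool.Agent.Lib.MP_1a91b9_ntR.coprime_of_not_dvd hp a1
    have cm := Pool.Agent.Lib.MP_1a91b9_ntR.coprime_of_not_dvd hp a2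
    have hd0 : d ≠ 0 := by
      intro h0
      rw [h0] at a1
      exact a1 (dvd_zero _)
    have k2 := rd7.jsz d c p hpo hd0 cd hNm.symm
    have hdv : d - c ∣ (p : ℤ) - 2 * (2 * d) ^ 2 := ⟨-(c + d), by rw [← hNm]; ring⟩
    have hodd : (d - c) % 2 = 1 := by
      unfold CV at e3
      omega
    have k1 := Pool.Agent.Lib.MP_1a91b9_ntR.js_odd2 hpo cm hdv hodd
    have k3 := Pool.Agent.Lib.MP_1a91b9_ntR.c2_two (R := 𝓞 K) q
    change cc q 2 = _ at k3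
    -- everything modulo 8
    have f3 : (p % 4 = 3) ↔ (((c : ZMod 8) ^ 2 + 7 * (d : ZMod 8) ^ 2 = 3) ∨
        ((c : ZMod 8) ^ 2 + 7 * (d : ZMod 8) ^ 2 = 7)) := by
      have := m84 (c ^ 2 + 7 * d ^ 2) 3 (by norm_num) (by norm_num)
      push_cast at this
      norm_num at this
      rw [← this, hNm]
      omega
    have g3 : (nG q.1 % 8 = 3 ∨ nG q.1 % 8 = 5) ↔ (((c : ZMod 8) ^ 2 + 7 * (d : ZMod 8) ^ 2 = 3) ∨
        ((c : ZMod 8) ^ 2 + 7 * (d : ZMod 8) ^ 2 = 5)) := by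
      have t3 := m8 (c ^ 2 + 7 * d ^ 2) 3 (by norm_num) (by norm_num)
      have t5 := m8 (c ^ 2 + 7 * d ^ 2) 5 (by norm_num) (by norm_num)
      push_cast at t3 t5
      rw [← t3, ← t5, hNm, hN]
      omega
    have l3 : ((d - c) % 4 = 3) ↔ ((d : ZMod 8) - (c : ZMod 8) = 3 ∨
        (d : ZMod 8) - (c : ZMod 8) = 7) := by
      have := m84 (d - c) 3 (by norm_num) (by norm_num)
      push_cast at this
      norm_num at this
      exact this
    have l5 : ((d - c) % 8 = 3 ∨ (d - c) % 8 = 5) ↔ ((d : ZMod 8) - (c : ZMod 8) = 3 ∨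
        (d : ZMod 8) - (c : ZMod 8) = 5) := by
      have t3 := m8 (d - c) 3 (by norm_num) (by norm_num)
      have t5 := m8 (d - c) 5 (by norm_num) (by norm_num)
      push_cast at t3 t5
      rw [← t3, ← t5]
    have l6 : (d % 4 = 2 ∨ d % 4 = 3) ↔ (((d : ZMod 8) = 2 ∨ (d : ZMod 8) = 6) ∨
        ((d : ZMod 8) = 3 ∨ (d : ZMod 8) = 7)) := by
      have t2 := m84 d 2 (by norm_num) (by norm_num)
      have t3 := m84 d 3 (by norm_num) (by norm_num)
      push_cast at t2 t3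
      norm_num at t2 t3
      rw [t2, t3]
    have l7 : (d : ZMod 2) = if ((d : ZMod 8) = 1 ∨ (d : ZMod 8) = 3 ∨ (d : ZMod 8) = 5 ∨
        (d : ZMod 8) = 7) then 1 else 0 := by
      rw [par4]
      have e8 : (d : ZMod 4) = ((d : ZMod 8)).cast := by
        rw [ZMod.cast_intCast (by norm_num : 4 ∣ 8)]
      rw [e8]
      generalize (d : ZMod 8) = v
      revert v
      decide
    have hC : (c : ZMod 8) - (d : ZMod 8) = 1 ∨ (c : ZMod 8) - (d : ZMod 8) = 5 := by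
      have := m84 (c - d) 1 (by norm_num) (by norm_num)
      push_cast at this
      norm_num at this
      exact this.1 e3
    have key := supp7 (c : ZMod 8) (d : ZMod 8) hC
    rw [k1, k2, k3, hV] at a3
    rw [haa, b1, ra_apply, e4, e5]
    push_cast
    simp only [g3] at a3
    simp only [l3, l5, f3, l6] at a3
    rw [key, ← l7] at a3
    have h2 : ∀ x y z : ZMod 2, x + y = x + z → y = z := by decide
    exact h2 _ _ _ a3
  · have h1 := (Pool.Agent.Lib.MP_1a91b9_ntR.c2_inert (R := 𝓞 K) q hp hp2 hN hd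
      (q_not_ta q)).2
    change cc q ta = _ at h1
    have hpo : p % 2 = 1 := Nat.odd_iff.1 (hp.odd_of_ne_two hp2)
    rw [h1, nG_ta, haa, b1, ra_apply, e4, e5, h0]
    have e : (((2 : ℕ) : ℕ) : ℤ) = 2 := rfl
    rw [e, Pool.Agent.Lib.MP_1a91b9_ntR.js_two hpo]
    push_cast
    simp only [sub_zero, mul_zero, add_zero, zero_add]
    unfold bF
    have t3 := m8 c 3 (by norm_num) (by norm_num)
    have t5 := m8 c 5 (by norm_num) (by norm_num)
    push_cast at t3 t5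
    simp only [← t3, ← t5]
    by_cases h8 : p % 8 = 1 ∨ p % 8 = 7
    · have f4 : ¬ (c % 8 = 3 ∨ c % 8 = 5) := by omega
      rw [if_pos h8, if_neg f4]
    · have f4 : c % 8 = 3 ∨ c % 8 = 5 := by omega
      rw [if_neg h8, if_pos f4]

/-- **The supplementary law for `1 - a`.** -/
theorem cc_tb (q : Pg7) : cc q tb = aa q + b2 q := by
  have h := cc_mul q (q_not_ta q) (q_not_tb q)
  rw [ta_mul_tb, cc_two, cc_ta] at h
  have h2 : ∀ x y z t : ZMod 2, x + y = z + x + t → t = z + y := by decide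
  exact h2 _ _ _ _ h

theorem sb_ta (q : Pg7) : sb q ta = aa q + b1 q := by rw [cc_sb, cc_ta]

theorem sb_tb (q : Pg7) : sb q tb = aa q + b2 q := by rw [cc_sb, cc_tb]

theorem sb_two (q : Pg7) : sb q 2 = b1 q + b2 q := by rw [cc_sb, cc_two]

theorem sb_neg_one (q : Pg7) : sb q (-1) = aa q := by rw [cc_sb, cc_neg_one]

theorem sb_recip (p q : Pg7) (h : p ≠ q) : sb p q.1 = sb q p.1 + aa p * aa q := by
  rw [cc_sb, cc_sb]
  exact cc_recip p q h

end

end Pool.Agent.Lib.MP_1a91b9_ntV
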