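import Pool.Agent.Lib.MP_1a91b9_ntV.R.Den7
import Pool.Agent.Lib.MP_1a91b9_ntR.DenC

/-!
# The field `ℚ(√-7)`: the density of the good squarefree elements, the two units excepted
-/

set_option autoImplicit false
set_option linter.unusedSectionVars false

namespace Pool.Agent.Lib.MP_1a91b9_ntV

open NumberField Finset Pool.Agent.Lib.MP_1a91b9_nuT Pool.Agent.Lib.MP_1a91b9_ntQ
open Pool.Agent.Lib.MP_1a91b9_ntV.DS (cinfV)
open Pool.Agent.Lib.MP_1a91b9_ntR (nG Qi Pri sys Rcp Bad mu pb GR cq SR gc SP mem_SP LowF UppF Cnd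
  cnd_cls tendsto_of not_unit_mu)

noncomputable section

variable [CD] [hv : V7]

/-- **The density of the good elements in a class modulo a power of `2`**, for a property which
agrees with `Gd7` at the elements different from `1` and `-1`. -/
theorem den7' {m u : 𝓞 K} {n : ℕ} (hm : m ∣ 2 ^ n)
    (hu : ∀ p : 𝓞 K, Prime p → ¬ (p ^ 2 ∣ m ∧ p ^ 2 ∣ u)) (P : 𝓞 K → Prop)
    (hP : ∀ x, Squarefree x → x ≠ 1 → x ≠ -1 → (P x ↔ Gd7 x)) :
    Filter.Tendsto (fun X : ℝ =>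
      (Nat.card {x : 𝓞 K // Squarefree x ∧ m ∣ x - u ∧ |Algebra.norm ℤ x| ≤ X ∧ P x} : ℝ) /
        (Nat.card {x : 𝓞 K // Squarefree x ∧ m ∣ x - u ∧ |Algebra.norm ℤ x| ≤ X} : ℝ))
      Filter.atTop (nhds cinfV) := by
  have hm' : m ∣ (2 : 𝓞 K) ^ (n + 3) := hm.trans (pow_dvd_pow _ (by omega))
  have hne : ∃ (i : ZMod 2 × (Fin 2 → ZMod 2)) (y : 𝓞 K), Pri.In y ∧ m ∣ mu pi7 i * y - u :=
    bad7.exists_cls fun a => hu _ (bad7.prime a)
  have key : ∀ (i : ZMod 2 × (Fin 2 → ZMod 2)) (S : Finset Pg7), S ≠ ∅ →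
      (P (mu pi7 i * DD S) ↔ Go7 i S) := by
    intro i S hS
    have h1 := not_unit_mu (π := pi7) (i := i) (S := S) hS
    have h2 : mu pi7 i * DD S ≠ 1 := fun h => h1 (by
      rw [DD_eq7, h]
      exact isUnit_one)
    have h3 : mu pi7 i * DD S ≠ -1 := fun h => h1 (by
      rw [DD_eq7, h]
      exact isUnit_one.neg)
    exact (hP _ (bad7.sqf i S) h2 h3).trans (Gd7_iff i S)
  apply tendsto_of
  · intro κ' hκ'
    obtain ⟨κ, h1, h2⟩ := exists_between hκ'
    refine bad7.low (mod7 n) (two_pow_ne7 n) (cnd_cls hm') hne h1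
      (LowF.congr (Good' := fun i S => P (mu pi7 i * DD S)) (low7 n _ h2)
        fun i S hS h => (key i S hS).2 h) P ?_
    intro i S _ hg
    exact hg
  · intro κ' hκ'
    obtain ⟨κ, h1, h2⟩ := exists_between hκ'
    refine bad7.upp (mod7 n) (two_pow_ne7 n) (cnd_cls hm') hne h2
      (UppF.congr (Good' := fun i S => P (mu pi7 i * DD S)) (upp7 n _ h1)
        fun i S hS h => (key i S hS).1 h) P ?_
    intro i S _ hg
    exact hg

end

end Pool.Agent.Lib.MP_1a91b9_ntV
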