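import Pool.Agent.Lib.MP_1a91b9_ntV.R.Bad7
import Pool.Agent.Lib.MP_1a91b9_ntV.DI.Dens7

/-!
# The field `ℚ(√-7)`: the density of the good squarefree elements

`Gd7 x`: `x = (-1)^d0 a^d1 (1-a)^d2 DD S` with `Good7 D7 S d0 d1 d2`. In every class modulo a power of
`2` which contains squarefree elements the density of `Gd7` is `cinfV`.
-/

set_option autoImplicit false
set_option linter.unusedSectionVars false

namespace Pool.Agent.Lib.MP_1a91b9_ntV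

open NumberField Finset Pool.Agent.Lib.MP_1a91b9_nuT Pool.Agent.Lib.MP_1a91b9_ntQ
open Pool.Agent.Lib.MP_1a91b9_ntV.DS (cinfV)
open Pool.Agent.Lib.MP_1a91b9_ntR (nG Qi Pri sys Rcp Bad mu pb GR cq SR gc SP mem_SP LowF UppF Cnd
  cnd_cls tendsto_of)

noncomputable section

variable [CD] [hv : V7]

/-- The good sets. -/
def Go7 (i : ZMod 2 × (Fin 2 → ZMod 2)) (S : Finset Pg7) : Prop :=
  Good7 D7 S i.1 (i.2 0) (i.2 1)

/-- The good squarefree elements. -/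
def Gd7 (x : 𝓞 K) : Prop := ∃ (d0 d1 d2 : ZMod 2) (S : Finset Pg7),
  x = (-1) ^ d0.val * ta ^ d1.val * tb ^ d2.val * DD S ∧ Good7 D7 S d0 d1 d2

theorem DD_eq7 (S : Finset Pg7) : Pool.Agent.Lib.MP_1a91b9_ntR.DD (R := 𝓞 K) S = DD S := rfl

theorem Gd7_iff (i : ZMod 2 × (Fin 2 → ZMod 2)) (S : Finset Pg7) :
    Gd7 (mu pi7 i * DD S) ↔ Go7 i S := by
  constructor
  · rintro ⟨d0, d1, d2, T, h1, h2⟩
    rw [← mu7] at h1
    obtain ⟨h3, h4⟩ := bad7.mul_inj (S := S) (T := T) h1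
    subst h4
    rw [h3]
    exact h2
  · intro h
    exact ⟨i.1, i.2 0, i.2 1, S, by rw [mu7'], h⟩

theorem okt7d : OKt D7 w7 := okt7

theorem two7 (n : ℕ) (i : ZMod 2 × (Fin 2 → ZMod 2)) (g : GR (mod7 n)) :
    TwoV (C7 n) g (Go7 i) := dens7 okt7d (C7 n) (h3_7 n) i.1 (i.2 0) (i.2 1) g

theorem low7 (n : ℕ) (Rc : 𝓞 K → Prop) {κ : ℝ} (hκ : κ < cinfV) :
    LowF (mod7 n) pi7 Rc κ Go7 := by
  classical
  intro i g _ ε hε
  obtain ⟨X₀, hX₀⟩ := (two7 n i g).1 κ hκ ε hε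
  refine ⟨X₀, fun X hX => ?_⟩
  have h := hX₀ X hX
  rw [SG7_eq] at h
  refine h.trans (le_of_eq ?_)
  congr 2

theorem upp7 (n : ℕ) (Rc : 𝓞 K → Prop) {κ : ℝ} (hκ : cinfV < κ) :
    UppF (mod7 n) pi7 Rc κ Go7 := by
  classical
  intro i g _ ε hε
  obtain ⟨X₀, hX₀⟩ := (two7 n i g).2 κ hκ ε hε
  refine ⟨X₀, fun X hX => ?_⟩
  have h := hX₀ X hX
  rw [SG7_eq] at h
  refine (le_of_eq ?_).trans h
  congr 2

/-- **The density of the good elements in a class modulo a power of `2`.** -/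
theorem den7 {m u : 𝓞 K} {n : ℕ} (hm : m ∣ 2 ^ n)
    (hu : ∀ p : 𝓞 K, Prime p → ¬ (p ^ 2 ∣ m ∧ p ^ 2 ∣ u)) (P : 𝓞 K → Prop)
    (hP : ∀ x, Squarefree x → (P x ↔ Gd7 x)) :
    Filter.Tendsto (fun X : ℝ =>
      (Nat.card {x : 𝓞 K // Squarefree x ∧ m ∣ x - u ∧ |Algebra.norm ℤ x| ≤ X ∧ P x} : ℝ) /
        (Nat.card {x : 𝓞 K // Squarefree x ∧ m ∣ x - u ∧ |Algebra.norm ℤ x| ≤ X} : ℝ))
      Filter.atTop (nhds cinfV) := by
  have hm' : m ∣ (2 : 𝓞 K) ^ (n + 3) := hm.trans (pow_dvd_pow _ (by omega))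
  have hne : ∃ (i : ZMod 2 × (Fin 2 → ZMod 2)) (y : 𝓞 K), Pri.In y ∧ m ∣ mu pi7 i * y - u :=
    bad7.exists_cls fun a => hu _ (bad7.prime a)
  apply tendsto_of
  · intro κ' hκ'
    obtain ⟨κ, h1, h2⟩ := exists_between hκ'
    refine bad7.low (mod7 n) (two_pow_ne7 n) (cnd_cls hm') hne h1 (low7 n _ h2) P ?_
    intro i S _ hg
    exact (hP _ (bad7.sqf i S)).2 ((Gd7_iff i S).2 hg)
  · intro κ' hκ'
    obtain ⟨κ, h1, h2⟩ := exists_between hκ'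
    refine bad7.upp (mod7 n) (two_pow_ne7 n) (cnd_cls hm') hne h2 (upp7 n _ h1) P ?_
    intro i S _ hp
    exact (Gd7_iff i S).1 ((hP _ (bad7.sqf i S)).1 hp)

/-- The lower bound, for a property which follows from `Gd7`. -/
theorem den7_low {m u : 𝓞 K} {n : ℕ} (hm : m ∣ 2 ^ n)
    (hu : ∀ p : 𝓞 K, Prime p → ¬ (p ^ 2 ∣ m ∧ p ^ 2 ∣ u)) (P : 𝓞 K → Prop)
    (hP : ∀ x, Squarefree x → Gd7 x → P x) (ε : ℝ) (hε : 0 < ε) :
    ∀ᶠ X : ℝ in Filter.atTop, cinfV - ε ≤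
      (Nat.card {x : 𝓞 K // Squarefree x ∧ m ∣ x - u ∧ |Algebra.norm ℤ x| ≤ X ∧ P x} : ℝ) /
        (Nat.card {x : 𝓞 K // Squarefree x ∧ m ∣ x - u ∧ |Algebra.norm ℤ x| ≤ X} : ℝ) := by
  have hm' : m ∣ (2 : 𝓞 K) ^ (n + 3) := hm.trans (pow_dvd_pow _ (by omega))
  have hne : ∃ (i : ZMod 2 × (Fin 2 → ZMod 2)) (y : 𝓞 K), Pri.In y ∧ m ∣ mu pi7 i * y - u :=
    bad7.exists_cls fun a => hu _ (bad7.prime a)
  obtain ⟨κ, h1, h2⟩ := exists_between (show cinfV - ε < cinfV by linarith)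
  refine bad7.low (mod7 n) (two_pow_ne7 n) (cnd_cls hm') hne h1 (low7 n _ h2) P ?_
  intro i S _ hg
  exact hP _ (bad7.sqf i S) ((Gd7_iff i S).2 hg)

end

end Pool.Agent.Lib.MP_1a91b9_ntV
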