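import Pool.Agent.Lib.MP_1a91b9_ntV.R.ClsB7
import Pool.Agent.Lib.MP_1a91b9_ntV.R.Den7
import Pool.Agent.Lib.MP_1a91b9_ntR.DenB

/-!
# Phase 7, the field `ℚ(√-7)`: the density of the squarefree `d` for which all the twists `a d` are
good

`DSJ7`: the joint density of the good sets of primes (part D). `den7_all`: the conclusion for the
squarefree elements.
-/

set_option autoImplicit false
set_option linter.unusedSectionVars false

namespace Pool.Agent.Lib.MP_1a91b9_ntV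

open NumberField Finset Pool.Agent.Lib.MP_1a91b9_nuT Pool.Agent.Lib.MP_1a91b9_ntQ
open Pool.Agent.Lib.MP_1a91b9_ntV.DS (cinfV)
open Pool.Agent.Lib.MP_1a91b9_ntH (PS nm Sx mem_Sx)
open Pool.Agent.Lib.MP_1a91b9_ntR (nG Qi Pri sys Rcp GR cq GRB cqB c2 mu SRB SPB mem_SRB mem_SPB
  DSBR DSJR)

noncomputable section

variable [CD] [hv : V7]

open Classical in
/-- The sets of primes outside `B` with the property `P` have lower density at least `κ₀` in the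
class `g`. -/
def DSB7 (n : ℕ) (B : Finset Pg7) (g : GRB (mod7 n) B) (κ₀ : ℝ) (P : Finset Pg7 → Prop) : Prop :=
  ∀ ε : ℝ, 0 < ε → ∃ X₀ : ℕ, ∀ X : ℕ, X₀ ≤ X →
    κ₀ * (((Sx Pg7 X).filter fun S => Disjoint S B ∧ ∑ q ∈ S, cB7 n B q = g).card : ℝ) - ε * X ≤
      (((Sx Pg7 X).filter fun S => Disjoint S B ∧ ∑ q ∈ S, cB7 n B q = g ∧ P S).card : ℝ)

/-- The joint density of the good sets of primes (part D). -/
def DSJ7 : Prop := ∀ (N : ℕ), 0 < N → ∀ (d0 d1 d2 : Fin N → ZMod 2) (T : Fin N → Finset Pg7)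
  (B : Finset Pg7), (∀ i, T i ⊆ B) → Function.Injective (fun i => (d0 i, d1 i, d2 i, T i)) →
  ∀ (n : ℕ) (g : GRB (mod7 n) B) (κ₀ : ℝ), κ₀ < cinfV ^ N →
  DSB7 n B g κ₀ fun S => ∀ i, Good7 D7 (S ∪ T i) (d0 i) (d1 i) (d2 i)

theorem SRB7_card (n : ℕ) (B : Finset Pg7) (g : GRB (mod7 n) B) (X : ℕ)
    [DecidablePred fun S : Finset Pg7 => Disjoint S B ∧ ∑ q ∈ S, cB7 n B q = g] :
    ((Sx Pg7 X).filter fun S => Disjoint S B ∧ ∑ q ∈ S, cB7 n B q = g).card =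
      (SRB (mod7 n) B g X).card := by
  congr 1
  ext S
  rw [mem_filter, mem_Sx]
  exact (mem_SRB (hQ := mod7 n) (B := B) (g := g) (X := X) (S := S)).symm

theorem SPB7_card (n : ℕ) (B : Finset Pg7) (g : GRB (mod7 n) B) (X : ℕ) (P : Finset Pg7 → Prop)
    [DecidablePred fun S : Finset Pg7 => Disjoint S B ∧ ∑ q ∈ S, cB7 n B q = g ∧ P S] :
    ((Sx Pg7 X).filter fun S => Disjoint S B ∧ ∑ q ∈ S, cB7 n B q = g ∧ P S).card =
      (SPB (mod7 n) B g X P).card := by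
  congr 1
  ext S
  rw [mem_filter, mem_Sx]
  have h := mem_SRB (hQ := mod7 n) (B := B) (g := g) (X := X) (S := S)
  have h' := mem_SPB (hQ := mod7 n) (B := B) (g := g) (X := X) (P := P) (S := S)
  rw [h] at h'
  refine Iff.trans ?_ h'.symm
  constructor
  · rintro ⟨a, b, c, d⟩
    exact ⟨⟨a, b, c⟩, d⟩
  · rintro ⟨⟨a, b, c⟩, d⟩
    exact ⟨a, b, c, d⟩

theorem DSB7.dsbr {n : ℕ} {B : Finset Pg7} {g : GRB (mod7 n) B} {κ₀ : ℝ} {P : Finset Pg7 → Prop}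
    (h : DSB7 n B g κ₀ P) : DSBR (mod7 n) B g κ₀ P := by
  intro ε hε
  obtain ⟨X₀, hX⟩ := h ε hε
  refine ⟨X₀, fun X hX' => ?_⟩
  have h1 := hX X hX'
  rw [SRB7_card, SPB7_card] at h1
  exact h1

theorem dsjr7 (hJ : DSJ7) (n : ℕ) : DSJR (mod7 n) Go7 cinfV := by
  intro N hN i T B hT hinj g κ₀ hκ
  refine (hJ N hN (fun a => (i a).1) (fun a => (i a).2 0) (fun a => (i a).2 1) T B hT ?_ n g κ₀
    hκ).dsbr
  intro a b hab
  apply hinj
  simp only [Prod.mk.injEq] at hab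
  refine Prod.ext (Prod.ext hab.1 ?_) hab.2.2.2
  funext x
  fin_cases x
  · exact hab.2.1
  · exact hab.2.2.1

/-- **The density of the squarefree `d` for which all the twists by the elements of `L` are good.** -/
theorem den7_all (hJ : DSJ7) {L : List (𝓞 K)} (hL : L ≠ []) (hne : ∀ a ∈ L, a ≠ 0)
    (hpw : L.Pairwise fun a b : 𝓞 K => ¬ ∃ y : K, y ^ 2 = (a : K) * b)
    {n : ℕ} {M u : 𝓞 K} (hM : M ∣ 2 ^ n)
    (hu : ∀ p : 𝓞 K, Prime p → ¬ (p ^ 2 ∣ M ∧ p ^ 2 ∣ u))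
    (Pr : 𝓞 K → Prop)
    (hPr : ∀ d : 𝓞 K, Squarefree d → (∀ a ∈ L, ∃ (d0 d1 d2 : ZMod 2) (S : Finset Pg7) (t : 𝓞 K),
      t ≠ 0 ∧ a * d = (-1) ^ d0.val * ta ^ d1.val * tb ^ d2.val * DD S * t ^ 2 ∧
      Good7 D7 S d0 d1 d2) → Pr d)
    (ε : ℝ) (hε : 0 < ε) :
    ∀ᶠ X : ℝ in Filter.atTop,
      cinfV ^ L.length - ε ≤
      (Nat.card {x : 𝓞 K // Squarefree x ∧ M ∣ x - u ∧ |Algebra.norm ℤ x| ≤ X ∧ Pr x} : ℝ) /
        (Nat.card {x : 𝓞 K // Squarefree x ∧ M ∣ x - u ∧ |Algebra.norm ℤ x| ≤ X} : ℝ) := by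
  have hm' : M ∣ (2 : 𝓞 K) ^ (n + 3) := hM.trans (pow_dvd_pow _ (by omega))
  refine bad7.den_all (mod7 n) (two_pow_ne7 n) (dsjr7 hJ n) hL hne ?_ hm'
    (fun a => hu _ (bad7.prime a)) Pr ?_ (by linarith)
  · refine hpw.imp fun {a b} h => ?_
    rintro ⟨y, hy⟩
    exact h ⟨(y : K), by exact_mod_cast congrArg (fun z : 𝓞 K => (z : K)) hy⟩
  · intro d hd h
    refine hPr d hd fun a ha => ?_
    obtain ⟨i, S, t, h1, h2, h3⟩ := h a ha
    refine ⟨i.1, i.2 0, i.2 1, S, t, h1, ?_, h3⟩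
    rw [h2, mu7']
    rfl

end

end Pool.Agent.Lib.MP_1a91b9_ntV
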