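import Pool.Agent.Lib.MP_1a91b9_ntV.R.Eng7
import Pool.Agent.Lib.MP_1a91b9_ntR.Den
import Pool.Agent.Lib.MP_1a91b9_ntQ.D.ClsQ

/-!
# The field `ℚ(√-7)`: the bad primes, the classes of the squarefree elements
-/

set_option autoImplicit false
set_option linter.unusedSectionVars false

namespace Pool.Agent.Lib.MP_1a91b9_ntV

open NumberField Finset Pool.Agent.Lib.MP_1a91b9_nuT Pool.Agent.Lib.MP_1a91b9_ntQ
open Pool.Agent.Lib.MP_1a91b9_ntR (nG Qi Pri sys Rcp Bad mu pb GR cq SR gc)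

noncomputable section

variable [CD] [hv : V7]

/-- The bad primes. -/
def pi7 : Fin 2 → 𝓞 K := ![ta, tb]

theorem pi7_zero : pi7 0 = (ta : 𝓞 K) := rfl

theorem pi7_one : pi7 1 = (tb : 𝓞 K) := rfl

theorem ta_not_tb : ¬ (ta : 𝓞 K) ∣ tb := by
  intro h
  have h1 : ta ∣ (1 : 𝓞 K) := by
    rw [← ta_add_tb]
    exact dvd_add (dvd_refl _) h
  exact ta_prime.not_isUnit (isUnit_of_dvd_one h1)

theorem tb_not_ta : ¬ (tb : 𝓞 K) ∣ ta := by
  intro h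
  have h1 : tb ∣ (1 : 𝓞 K) := by
    rw [← ta_add_tb]
    exact dvd_add h (dvd_refl _)
  exact tb_prime.not_isUnit (isUnit_of_dvd_one h1)

theorem bad7 : Bad (R := 𝓞 K) pi7 where
  prime a := by
    fin_cases a
    · exact ta_prime
    · exact tb_prime
  ne a b hab := by
    fin_cases a <;> fin_cases b
    · exact absurd rfl hab
    · exact ta_not_tb
    · exact tb_not_ta
    · exact absurd rfl hab
  odd a x hx := by
    have hx' : In7 x := hx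
    fin_cases a
    · exact hx'.not_ta
    · exact hx'.2
  cop x hx := cop_four (hx 0) (hx 1)
  unit _ hu := unit_eq hu

/-- The multipliers. -/
theorem mu7 (d0 d1 d2 : ZMod 2) :
    mu pi7 (d0, ![d1, d2]) = (-1 : 𝓞 K) ^ d0.val * ta ^ d1.val * tb ^ d2.val := by
  unfold mu pb
  rw [Fin.prod_univ_two, mul_assoc]
  rfl

theorem mu7' (i : ZMod 2 × (Fin 2 → ZMod 2)) :
    mu pi7 i = (-1 : 𝓞 K) ^ i.1.val * ta ^ (i.2 0).val * tb ^ (i.2 1).val := by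
  unfold mu pb
  rw [Fin.prod_univ_two, mul_assoc]
  rfl

/-- The class group modulo `2 ^ (n + 3)` of the data `D7`. -/
def C7 (n : ℕ) : Cl2 (D7 : Dat2 Pg7 (Fin 3)) (GR (mod7 n)) where
  cl q := cq (mod7 n) q
  A := Pool.Agent.Lib.MP_1a91b9_ntR.QSys.AQ (mod7 n) (cls7 n).mul (cls7 n).per
  ha q j := (Pool.Agent.Lib.MP_1a91b9_ntR.QSys.AQ_clp (mod7 n) (cls7 n).mul (cls7 n).per j q).symm

theorem h3_7 (n : ℕ) : (C7 n).H3 := by
  have := Pool.Agent.Lib.MP_1a91b9_ntR.finite_quot (two_pow_ne7 n)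
  intro ψ hψ ε hε
  exact Pool.Agent.Lib.MP_1a91b9_ntR.QSys.h3G Pool.Agent.Lib.MP_1a91b9_ntR.sys_com (mod7 n)
    (two_pow_ne7 n) ψ hψ ε hε

instance finGR7 (n : ℕ) : Fintype (GR (mod7 n)) := by
  have := Pool.Agent.Lib.MP_1a91b9_ntR.finite_GR (mod7 n) (two_pow_ne7 n)
  exact Fintype.ofFinite _

theorem SG7_eq (n : ℕ) (g : GR (mod7 n)) (X : ℕ) :
    Pool.Agent.Lib.MP_1a91b9_ntQ.Da.SG (C7 n) g X = SR (mod7 n) g X := by
  ext S
  have h1 := Pool.Agent.Lib.MP_1a91b9_ntQ.Da.mem_SG (C := C7 n) (g := g) (X := X) (S := S)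
  rw [h1, Pool.Agent.Lib.MP_1a91b9_ntH.mem_Sx]
  exact (Pool.Agent.Lib.MP_1a91b9_ntR.mem_SR (hQ := mod7 n) (g := g) (X := X)).symm

end

end Pool.Agent.Lib.MP_1a91b9_ntV
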