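import Pool.Agent.Lib.MP_1a91b9_ntV.R.Bad7
import Pool.Agent.Lib.MP_1a91b9_ntR.ClsB

/-!
# Phase 7, the field `ℚ(√-7)`: the classes of the primes outside a finite set `B`

`C7B n B`, `E7B n B`: the classes modulo `2 ^ (n + 3)` and the symbols modulo the primes of `B`, for
the data `D7.off B` and `E7.off B`.
-/

set_option autoImplicit false
set_option linter.unusedSectionVars false

namespace Pool.Agent.Lib.MP_1a91b9_ntV

open NumberField Finset Pool.Agent.Lib.MP_1a91b9_nuT Pool.Agent.Lib.MP_1a91b9_ntQ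
open Pool.Agent.Lib.MP_1a91b9_ntR (nG Qi Pri sys Rcp GR cq GRB cqB c2)

noncomputable section

variable [CD] [hv : V7]

/-- The class of a prime: modulo `2 ^ (n + 3)` and the symbols modulo the primes of `B`. -/
def cB7 (n : ℕ) (B : Finset Pg7) (q : Pg7) : GRB (mod7 n) B := cqB (mod7 n) B q

theorem dat_D7 : (sys (𝓞 K)).dat cl7 = D7 := by
  unfold Pool.Agent.Lib.MP_1a91b9_ntR.QSys.dat D7
  congr 1
  funext q p
  exact (cc_sb p q.1).symm

theorem dR_E7 : Pool.Agent.Lib.MP_1a91b9_ntR.dR (R := 𝓞 K) cl7 = E7 := by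
  unfold Pool.Agent.Lib.MP_1a91b9_ntR.dR E7
  congr 1
  funext q p
  exact (cc_sb q p.1).symm

/-- The class system of the data `D7.off B`. -/
def C7B (n : ℕ) (B : Finset Pg7) : Cl2 (D7.off B) (GRB (mod7 n) B) where
  cl q := cB7 n B q.1
  A := (Pool.Agent.Lib.MP_1a91b9_ntR.datB (R := 𝓞 K) (mod7 n) (cls7 n) B).A
  ha q j := by
    have h := (Pool.Agent.Lib.MP_1a91b9_ntR.datB (R := 𝓞 K) (mod7 n) (cls7 n) B).ha q j
    have h1 : (D7.off B).a q j = (((sys (𝓞 K)).dat cl7).off B).a q j := by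
      rw [dat_D7]
      rfl
    rw [h1]
    exact h

/-- The class system of the data `E7.off B`. -/
def E7B (n : ℕ) (B : Finset Pg7) : Cl2 (E7.off B) (GRB (mod7 n) B) where
  cl q := cB7 n B q.1
  A := (Pool.Agent.Lib.MP_1a91b9_ntR.dRB (R := 𝓞 K) (mod7 n) (cls7 n) rcp7 B).A
  ha q j := by
    have h := (Pool.Agent.Lib.MP_1a91b9_ntR.dRB (R := 𝓞 K) (mod7 n) (cls7 n) rcp7 B).ha q j
    have h1 : (E7.off B).a q j =
        ((Pool.Agent.Lib.MP_1a91b9_ntR.dR (R := 𝓞 K) cl7).off B).a q j := by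
      rw [dR_E7]
      rfl
    rw [h1]
    exact h

/-- **Every nontrivial character of the classes has mean value zero.** -/
theorem h3_7B (n : ℕ) (B : Finset Pg7) : (C7B n B).H3 := by
  intro ψ hψ ε hε
  obtain ⟨q, hq⟩ := hψ
  exact Pool.Agent.Lib.MP_1a91b9_ntR.h3B' (mod7 n) (two_pow_ne7 n) B ψ ⟨q.1, hq⟩ ε hε

theorem h3_7B' (n : ℕ) (B : Finset Pg7) : (E7B n B).H3 := by
  intro ψ hψ ε hε
  obtain ⟨q, hq⟩ := hψ
  exact Pool.Agent.Lib.MP_1a91b9_ntR.h3B' (mod7 n) (two_pow_ne7 n) B ψ ⟨q.1, hq⟩ ε hε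

end

end Pool.Agent.Lib.MP_1a91b9_ntV
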