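import Pool.Agent.Lib.MP_1a91b9_ntV.Base7
import Pool.Agent.Lib.MP_1a91b9_ntR.Rcp
import Pool.Agent.Lib.MP_1a91b9_ntR.Jac2
import Pool.Agent.Lib.MP_1a91b9_ntR.OK

/-!
# The field `ℚ(√-7)`: the instances of the generic part R, the reciprocity law, the supplementary laws
-/

set_option autoImplicit false
set_option linter.unusedSectionVars false

namespace Pool.Agent.Lib.MP_1a91b9_ntV

open NumberField Pool.Agent.Lib.MP_1a91b9_nuT Pool.Agent.Lib.MP_1a91b9_ntQ
open Pool.Agent.Lib.MP_1a91b9_ntR (Qi Pri nG nG_cast nfG mulG js Rd)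

noncomputable section

variable [CD] [hv : V7]

/-- The form `x² + x y + 2 y²`. -/
def F7 : Pool.Agent.Lib.MP_1a91b9_ntR.Frm := ⟨1, 2, Or.inr rfl, by norm_num, by norm_num⟩

/-- The coordinates. -/
def co7 : 𝓞 K ≃+ ℤ × ℤ where
  toFun x := (c0 x, c1 x)
  invFun z := (z.1 : 𝓞 K) + (z.2 : 𝓞 K) * ta
  left_inv x := (coo x).symm
  right_inv z := by
    have h := coo_of (x := (z.1 : 𝓞 K) + (z.2 : 𝓞 K) * ta) rfl
    exact Prod.ext h.1 h.2
  map_add' x y := Prod.ext (coo_add x y).1 (coo_add x y).2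

instance qi7 : Qi (𝓞 K) where
  F := F7
  co := co7
  co_mul x y := by
    have h := coo_mul x y
    refine Prod.ext ?_ ?_
    · change c0 (x * y) = c0 x * c0 y - 2 * c1 x * c1 y
      rw [h.1]
      ring
    · change c1 (x * y) = c0 x * c1 y + c1 x * c0 y + 1 * c1 x * c1 y
      rw [h.2]
      ring

theorem nG_c (x : 𝓞 K) : (nG x : ℤ) = c0 x ^ 2 + c0 x * c1 x + 2 * c1 x ^ 2 := by
  rw [nG_cast]
  change c0 x ^ 2 + 1 * c0 x * c1 x + 2 * c1 x ^ 2 = _
  ring

theorem nG_norm (x : 𝓞 K) : (nG x : ℤ) = Algebra.norm ℤ x := by rw [nG_c, norm_eq]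

/-- the norm modulo `8` -/
theorem nG_mod (x : 𝓞 K) : ((nG x : ℕ) : ZMod 8) = ra x * rb x := by
  have h := norm_mod x
  rw [← nG_norm, Int.cast_natCast] at h
  exact h

/-- the primary elements -/
def In7 (x : 𝓞 K) : Prop := ta ^ 2 ∣ x - 1 ∧ ¬ tb ∣ x

theorem in7_iff {x : 𝓞 K} : In7 x ↔ 2 * ra x = 2 ∧ 4 * rb x = 4 := by
  unfold In7
  rw [ta2_dvd, map_sub, map_one, tb_dvd]
  generalize ra x = u
  generalize rb x = v
  revert u v
  decide

theorem In7.mul {x y : 𝓞 K} (hx : In7 x) : In7 (x * y) ↔ In7 y := by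
  rw [in7_iff] at hx
  rw [in7_iff, in7_iff, map_mul, map_mul]
  revert hx
  generalize ra x = u
  generalize rb x = v
  generalize ra y = s
  generalize rb y = t
  revert u v s t
  decide +kernel

theorem cop_four {x : 𝓞 K} (ha : ¬ ta ∣ x) (hb : ¬ tb ∣ x) : IsCoprime x (4 : 𝓞 K) := by
  have h1 : IsCoprime x ta := (ta_prime.irreducible.coprime_iff_not_dvd.2 ha).symm
  have h2 : IsCoprime x tb := (tb_prime.irreducible.coprime_iff_not_dvd.2 hb).symm
  have e : (4 : 𝓞 K) = (ta * tb) ^ 2 := by rw [ta_mul_tb]; norm_num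
  rw [e]
  exact (h1.mul_right h2).pow_right

theorem In7.not_ta {x : 𝓞 K} (hx : In7 x) : ¬ ta ∣ x := by
  rw [ta_dvd]
  have h := (in7_iff.1 hx).1
  revert h
  generalize ra x = u
  revert u
  decide

theorem four_red {x : 𝓞 K} (h : (4 : 𝓞 K) ∣ x) : 2 * ra x = 0 ∧ 2 * rb x = 0 := by
  obtain ⟨y, rfl⟩ := h
  rw [map_mul, map_mul, map_ofNat, map_ofNat]
  generalize ra y = u
  generalize rb y = v
  revert u v
  decide

instance pri7 : Pri (𝓞 K) where
  In := In7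
  M := 4
  ne := by norm_num
  in_one := by
    rw [in7_iff, map_one, map_one]
    decide
  mul_in _ _ hx := hx.mul
  con x y h hx := by
    have h1 := four_red h
    rw [map_sub, map_sub] at h1
    rw [in7_iff] at hx ⊢
    revert h1 hx
    generalize ra x = u
    generalize rb x = v
    generalize ra y = s
    generalize rb y = t
    revert u v s t
    decide +kernel
  zero h := h.2 (dvd_zero _)
  cop _ hx := cop_four hx.not_ta hx.2
  odd x hx := by
    have h1 := nG_mod x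
    have h2 := in7_iff.1 hx
    have h3 : (4 : ZMod 8) * ((nG x : ℕ) : ZMod 8) = 4 := by
      rw [h1]
      revert h2
      generalize ra x = u
      generalize rb x = v
      revert u v
      decide
    have h4 : (((4 * nG x : ℕ)) : ZMod 8) = ((4 : ℕ) : ZMod 8) := by
      push_cast
      exact h3
    rw [ZMod.natCast_eq_natCast_iff] at h4
    unfold Nat.ModEq at h4
    omega
  unit u hu hP := by
    rcases unit_eq hu with h | h
    · exact h
    · exfalso
      have h1 := (in7_iff.1 hP).1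
      rw [h, map_neg, map_one] at h1
      revert h1
      decide
  ex x hx := by
    have key : ∀ g : 𝓞 K, Prime g → g ∣ 2 → ¬ g ∣ x := by
      intro g hg h2 h
      have h4 : g ∣ (4 : 𝓞 K) := h2.trans ⟨2, by norm_num⟩
      exact hg.not_isUnit (hx.isUnit_of_dvd' h h4)
    have ha := key ta ta_prime ⟨tb, ta_mul_tb.symm⟩
    have hb := key tb tb_prime ⟨ta, by rw [mul_comm]; exact ta_mul_tb.symm⟩
    have h1 := odd_ra ha
    have h2 := odd_rb hb
    have h3 : In7 x ∨ In7 (-x) := by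
      rw [in7_iff, in7_iff, map_neg, map_neg]
      revert h1 h2
      generalize ra x = u
      generalize rb x = v
      revert u v
      decide
    rcases h3 with h3 | h3
    · exact ⟨1, isUnit_one, by rw [one_mul]; exact h3⟩
    · exact ⟨-1, isUnit_one.neg, by rw [neg_one_mul]; exact h3⟩

theorem Pg7_eq : Pool.Agent.Lib.MP_1a91b9_ntR.Pg (𝓞 K) = Pg7 := rfl

/-- the structure of a set of primes -/
instance ps7 : Pool.Agent.Lib.MP_1a91b9_ntH.PS Pg7 :=
  inferInstanceAs (Pool.Agent.Lib.MP_1a91b9_ntH.PS (Pool.Agent.Lib.MP_1a91b9_ntR.Pg (𝓞 K)))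

/-- The exponent of the quadratic symbol of `x` modulo `q`. -/
def cc (q : Pg7) (x : 𝓞 K) : ZMod 2 := Pool.Agent.Lib.MP_1a91b9_ntR.c2 (R := 𝓞 K) q x

open Classical in
theorem cc_def (q : Pg7) (x : 𝓞 K) : cc q x = if ∃ y, q.1 ∣ y ^ 2 - x then 0 else 1 := rfl

theorem cc_sb (q : Pg7) (x : 𝓞 K) : sb q x = cc q x := by
  classical
  rw [cc_def, sb]
  by_cases h : q.1 ∣ x
  · rw [ch_zero h, if_neg (by norm_num), if_pos]
    exact ⟨0, by rw [zero_pow two_ne_zero, zero_sub, dvd_neg]; exact h⟩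
  · have h1 := ch_one_iff h
    have h2 : (∃ y, q.1 ∣ x - y ^ 2) ↔ ∃ y, q.1 ∣ y ^ 2 - x := by
      refine exists_congr fun y => ?_
      rw [← neg_sub, dvd_neg]
    rw [h2] at h1
    by_cases h3 : ∃ y, q.1 ∣ y ^ 2 - x
    · rw [if_pos h3, h1.2 h3, if_neg (by norm_num)]
    · rw [if_neg h3, if_pos]
      rcases ch_or h with h4 | h4
      · exact absurd (h1.1 h4) h3
      · exact h4

/-- `√-7` -/
def wv : 𝓞 K := 2 * ta - 1

theorem wv_sq : (wv : 𝓞 K) ^ 2 = -7 := by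
  unfold wv
  linear_combination 4 * ta_sq

/-- The condition on the coordinates with respect to `1, √-7`. -/
def CV (c d : ℤ) : Prop := (c - d) % 4 = 1

/-- The exponent of `(E / M² + 7 E²)`. -/
def hV (E : ℤ) : ZMod 2 := if E % 4 = 2 ∨ E % 4 = 3 then 1 else 0

theorem mod4 (E k : ℤ) (h0 : 0 ≤ k) (h4 : k < 4) : E % 4 = k ↔ (E : ZMod 4) = (k : ZMod 4) := by
  have h : (E : ZMod 4) = (k : ZMod 4) ↔ (4 : ℤ) ∣ E - k := by
    rw [← sub_eq_zero (a := (E : ZMod 4)), ← Int.cast_sub, ZMod.intCast_zmod_eq_zero_iff_dvd]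
    rfl
  rw [h]
  omega

theorem CV_iff (c d : ℤ) : CV c d ↔ (c : ZMod 4) - (d : ZMod 4) = 1 := by
  unfold CV
  rw [mod4 (c - d) 1 (by norm_num) (by norm_num)]
  push_cast
  rfl

theorem hV_eq (E : ℤ) : hV E = if (E : ZMod 4) = 2 ∨ (E : ZMod 4) = 3 then 1 else 0 := by
  unfold hV
  have h2 := mod4 E 2 (by norm_num) (by norm_num)
  have h3 := mod4 E 3 (by norm_num) (by norm_num)
  push_cast at h2 h3
  simp only [h2, h3]

theorem par4 (E : ℤ) : (E : ZMod 2) = if (E : ZMod 4) = 1 ∨ (E : ZMod 4) = 3 then 1 else 0 := by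
  have h1 := mod4 E 1 (by norm_num) (by norm_num)
  have h3 := mod4 E 3 (by norm_num) (by norm_num)
  push_cast at h1 h3
  have h : E % 2 = 1 ↔ ((E : ZMod 4) = 1 ∨ (E : ZMod 4) = 3) := by
    rw [← h1, ← h3]
    omega
  have h2 : (E : ZMod 2) = if E % 2 = 1 then 1 else 0 := by
    split_ifs with h3
    · rw [← sub_eq_zero, ← Int.cast_one, ← Int.cast_sub, ZMod.intCast_zmod_eq_zero_iff_dvd]
      push_cast
      omega
    · rw [ZMod.intCast_zmod_eq_zero_iff_dvd]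
      push_cast
      omega
  rw [h2]
  simp only [h]

theorem fin7 (x y c d : ZMod 4) (h1 : x - y = 1) (h2 : c - d = 1) :
    (if x * d - y * c = 2 ∨ x * d - y * c = 3 then (1 : ZMod 2) else 0) +
      (if x ^ 2 + 7 * y ^ 2 = 3 then 1 else 0) +
      (if d = 2 ∨ d = 3 then 1 else 0) + (if y = 2 ∨ y = 3 then 1 else 0) =
      (if y = 1 ∨ y = 3 then 1 else 0) * (if d = 1 ∨ d = 3 then 1 else 0) := by
  revert h1 h2
  revert x y c d
  decide +kernel

/-- the coordinates with respect to `1, √-7` -/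
theorem form7 (x : 𝓞 K) (hx : In7 x) : ∃ c d : ℤ, x = (c : 𝓞 K) + (d : 𝓞 K) * wv ∧
    (nG x : ℤ) = c ^ 2 + 7 * d ^ 2 ∧ CV c d ∧ c0 x = c - d ∧ c1 x = 2 * d := by
  have h1 := in7_iff.1 hx
  rw [ra_apply, rb_apply] at h1
  have h2 : c1 x % 2 = 0 := by
    have h3 : (((4 * (c1 x) : ℤ)) : ZMod 8) = 0 := by
      push_cast
      have ha := h1.1
      have hb := h1.2
      revert ha hb
      generalize (c0 x : ZMod 8) = u
      generalize (c1 x : ZMod 8) = v
      revert u v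
      decide
    rw [ZMod.intCast_zmod_eq_zero_iff_dvd] at h3
    push_cast at h3
    omega
  obtain ⟨d, hd⟩ : ∃ d, c1 x = 2 * d := ⟨c1 x / 2, by omega⟩
  refine ⟨c0 x + d, d, ?_, ?_, ?_, by ring, hd⟩
  · conv_lhs => rw [coo x, hd]
    unfold wv
    push_cast
    ring
  · rw [nG_c, hd]
    ring
  · unfold CV
    have h3 : (((2 * (c0 x + 6 * c1 x) : ℤ)) : ZMod 8) = ((2 : ℤ) : ZMod 8) := by
      push_cast
      exact h1.1
    rw [← sub_eq_zero, ← Int.cast_sub, ZMod.intCast_zmod_eq_zero_iff_dvd] at h3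
    push_cast at h3
    omega

/-- The 2-adic data of `ℤ[(1 + √-7) / 2]`. -/
theorem rd7 : Rd (𝓞 K) 7 wv CV hV (fun y => (y : ZMod 2)) where
  sq := by
    rw [wv_sq]
    push_cast
    rfl
  unit u hu := unit_eq (Pool.Agent.Lib.MP_1a91b9_ntR.isUnit_iff_nG.2 hu)
  form x hx := by
    obtain ⟨c, d, h1, h2, h3, -, -⟩ := form7 x hx
    exact ⟨c, d, h1, h2, h3⟩
  inj r c d h := by
    have h1 : (r : 𝓞 K) = ((c - d : ℤ) : 𝓞 K) + ((2 * d : ℤ) : 𝓞 K) * ta := by
      rw [h]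
      unfold wv
      push_cast
      ring
    have h2 := coo_of h1
    have h3 := coo_of (x := (r : 𝓞 K)) (m := r) (n := 0) (by push_cast; ring)
    have h4 := h2.1.symm.trans h3.1
    have h5 := h2.2.symm.trans h3.2
    omega
  jsz E M N hN hE0 hc h := by
    have hd : E ∣ (N : ℤ) - M ^ 2 := ⟨7 * E, by rw [h]; ring⟩
    rcases Int.emod_two_eq_zero_or_one E with h1 | h1
    · have hM : M % 2 = 1 := by
        rcases Int.emod_two_eq_zero_or_one M with h2 | h2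
        · exfalso
          obtain ⟨k, rfl⟩ : ∃ k, M = 2 * k := ⟨M / 2, by omega⟩
          obtain ⟨e, rfl⟩ : ∃ e, E = 2 * e := ⟨E / 2, by omega⟩
          have h3 : (N : ℤ) = 2 * (2 * k ^ 2 + 14 * e ^ 2) := by rw [h]; ring
          omega
        · exact h2
      obtain ⟨k, rfl⟩ : ∃ k, M = 2 * k + 1 := ⟨M / 2, by omega⟩
      have hkk : k * (k + 1) % 2 = 0 := Int.even_iff.1 (Int.even_mul_succ_self k)
      rcases (by omega : E % 4 = 2 ∨ E % 4 = 0) with h4 | h4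
      · obtain ⟨e, rfl⟩ : ∃ e, E = 4 * e + 2 := ⟨E / 4, by omega⟩
        have h2 : (N : ℤ) = 4 * (k * (k + 1)) + 8 * (14 * (e ^ 2 + e) + 3) + 5 := by rw [h]; ring
        rw [Pool.Agent.Lib.MP_1a91b9_ntR.js_two_mod (by omega) hc hd h4, hV, if_neg (by omega),
          if_pos (Or.inl h4)]
      · obtain ⟨e, rfl⟩ : ∃ e, E = 4 * e := ⟨E / 4, by omega⟩
        have h2 : (N : ℤ) = 4 * (k * (k + 1)) + 8 * (14 * e ^ 2) + 1 := by rw [h]; ring
        rw [Pool.Agent.Lib.MP_1a91b9_ntR.js_eight (by omega) (4 * e) hE0 hc hd, hV,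
          if_neg (by omega)]
    · have hM : M % 2 = 0 := by
        rcases Int.emod_two_eq_zero_or_one M with h2 | h2
        · exact h2
        · exfalso
          obtain ⟨k, rfl⟩ : ∃ k, M = 2 * k + 1 := ⟨M / 2, by omega⟩
          obtain ⟨e, rfl⟩ : ∃ e, E = 2 * e + 1 := ⟨E / 2, by omega⟩
          have h3 : (N : ℤ) = 2 * (2 * k ^ 2 + 2 * k + 14 * (e ^ 2 + e) + 4) := by rw [h]; ring
          omega
      have h4 : N % 4 = 3 := by
        obtain ⟨k, rfl⟩ : ∃ k, M = 2 * k := ⟨M / 2, by omega⟩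
        obtain ⟨e, rfl⟩ : ∃ e, E = 2 * e + 1 := ⟨E / 2, by omega⟩
        have h2 : (N : ℤ) = 4 * (k ^ 2 + 7 * (e ^ 2 + e) + 1) + 3 := by rw [h]; ring
        omega
      rw [Pool.Agent.Lib.MP_1a91b9_ntR.js_odd hN hc hd h1, hV]
      have h5 : (E % 4 = 2 ∨ E % 4 = 3) ↔ E % 4 = 3 := by omega
      simp only [h4, true_and, h5]
  fin x y c d hx hc := by
    rw [CV_iff] at hx hc
    have h := fin7 _ _ _ _ hx hc
    rw [hV_eq, hV_eq, hV_eq, par4 y, par4 d, ← h]
    have e1 : (x ^ 2 + 7 * y ^ 2) % 4 = 3 ↔ ((x : ZMod 4) ^ 2 + 7 * (y : ZMod 4) ^ 2 = 3) := by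
      have := mod4 (x ^ 2 + 7 * y ^ 2) 3 (by norm_num) (by norm_num)
      push_cast at this
      exact this
    simp only [e1]
    push_cast
    rfl
  rat c h := by
    unfold CV at h
    omega
  bt0 := by simp

theorem aa_d {q : Pg7} {c d : ℤ} (h0 : c0 q.1 = c - d) (h1 : c1 q.1 = 2 * d) (hC : CV c d) :
    aa q = (d : ZMod 2) := by
  rw [aa, rb_apply, h0, h1, par4]
  have h3 : (((c - d : ℤ) : ZMod 4)) = 1 := by
    have := (CV_iff c d).1 hC
    push_cast
    exact this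
  obtain ⟨k, hk⟩ : ∃ k, c - d = 4 * k + 1 := by
    unfold CV at hC
    exact ⟨(c - d) / 4, by omega⟩
  rw [hk]
  have e4 : (d : ZMod 4) = ((d : ZMod 8)).cast := by
    rw [ZMod.cast_intCast (by norm_num : 4 ∣ 8)]
  rw [e4]
  push_cast
  generalize (k : ZMod 8) = u
  generalize (d : ZMod 8) = v
  revert u v
  decide

/-- **The quadratic reciprocity law in `ℤ[(1 + √-7) / 2]`.** -/
theorem cc_recip (p q : Pg7) (h : p ≠ q) : cc p q.1 = cc q p.1 + aa p * aa q := by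
  obtain ⟨x, y, e1, e2, e3, e4, e5⟩ := form7 p.1 p.2.2
  obtain ⟨c, d, f1, f2, f3, f4, f5⟩ := form7 q.1 q.2.2
  have h1 := rd7.recip (A := p) (B := q) h e1 f1 e3 f3 e2 f2
  rw [aa_d e4 e5 e3, aa_d f4 f5 f3]
  have key : ∀ a b c : ZMod 2, b + a = c → a = b + c := by decide
  exact key _ _ _ h1

theorem cc_mul (q : Pg7) {x y : 𝓞 K} (hx : ¬ q.1 ∣ x) (hy : ¬ q.1 ∣ y) :
    cc q (x * y) = cc q x + cc q y :=
  Pool.Agent.Lib.MP_1a91b9_ntR.c2_mul (R := 𝓞 K) q hx hy

/-- **The supplementary law for `-1`.** -/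
theorem cc_neg_one (q : Pg7) : cc q (-1) = aa q := by
  have h := Pool.Agent.Lib.MP_1a91b9_ntR.c2_neg_one (R := 𝓞 K) q
  change cc q (-1) = _ at h
  have h1 := nG_mod q.1
  have h2 := in7_iff.1 q.2.2
  have h3 : (nG q.1 % 4 = 3) ↔ (4 * ((nG q.1 : ℕ) : ZMod 8) = 4 ∧
      2 * ((nG q.1 : ℕ) : ZMod 8) = 6) := by
    have e4 : (4 * ((nG q.1 : ℕ) : ZMod 8) = 4) ↔ (4 * nG q.1) % 8 = 4 := by
      have : (4 * ((nG q.1 : ℕ) : ZMod 8) = 4) ↔ (((4 * nG q.1 : ℕ)) : ZMod 8) = ((4 : ℕ) : ZMod 8) := by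
        push_cast
        rfl
      rw [this, ZMod.natCast_eq_natCast_iff]
      rfl
    have e2 : (2 * ((nG q.1 : ℕ) : ZMod 8) = 6) ↔ (2 * nG q.1) % 8 = 6 := by
      have : (2 * ((nG q.1 : ℕ) : ZMod 8) = 6) ↔ (((2 * nG q.1 : ℕ)) : ZMod 8) = ((6 : ℕ) : ZMod 8) := by
        push_cast
        rfl
      rw [this, ZMod.natCast_eq_natCast_iff]
      rfl
    rw [e4, e2]
    omega
  rw [h, aa]
  simp only [h3, h1]
  revert h2
  generalize ra q.1 = u
  generalize rb q.1 = v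
  revert u v
  decide

end

end Pool.Agent.Lib.MP_1a91b9_ntV
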